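import Pool.Agent.T2H66.CF.VT
import Mathlib.Analysis.Real.Hyperreal
import Mathlib.Topology.Algebra.Order.Field

set_option autoImplicit false

/-!
# Embedding fields with bounded countable subsets into connected fields
-/

open Filter Topology Set

namespace Pool.Agent.Results.MP_a60711_al.CountablyBoundedFields

/-- The countable subsets `R` of the field `F` are bounded: for every neighbourhood `U` of `0` there
is a neighbourhood `V` of `0` with `R * V ⊆ U`. -/
def CountablyBounded (F : Type*) [Field F] [TopologicalSpace F] : Prop :=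
  ∀ R : Set F, R.Countable → ∀ U ∈ 𝓝 (0 : F), ∃ V ∈ 𝓝 (0 : F), ∀ r ∈ R, ∀ v ∈ V, r * v ∈ U

/-- Countable intersections of neighbourhoods of `0` are neighbourhoods of `0`. -/
def IsPTopology (F : Type*) [Field F] [TopologicalSpace F] : Prop :=
  ∀ U : ℕ → Set F, (∀ n, U n ∈ 𝓝 (0 : F)) → ⋂ n, U n ∈ 𝓝 (0 : F)

/-- The topological field `F` embeds into a connected Hausdorff topological field. -/
def EmbedsIntoConnected (F : Type) [Field F] [TopologicalSpace F] : Prop :=
  ∃ (K : Type) (_ : Field K) (_ : TopologicalSpace K),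
    IsTopologicalDivisionRing K ∧ T2Space K ∧ ConnectedSpace K ∧
      ∃ g : F →+* K, Topology.IsEmbedding g

theorem cb_of_p {F : Type*} [Field F] [TopologicalSpace F] [IsTopologicalDivisionRing F]
    (hF : IsPTopology F) : CountablyBounded F := by
  intro R hR U hU
  rcases R.eq_empty_or_nonempty with rfl | hne
  · exact ⟨univ, univ_mem, fun r hr => absurd hr (Set.notMem_empty r)⟩
  obtain ⟨s, rfl⟩ := hR.exists_eq_range hne
  refine ⟨⋂ n, {x | s n * x ∈ U}, hF _ fun n => ?_, ?_⟩
  · have h : Tendsto (fun x : F => s n * x) (𝓝 0) (𝓝 (s n * 0)) :=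
      (continuous_const.mul continuous_id).tendsto 0
    rw [mul_zero] at h
    exact h hU
  · rintro _ ⟨n, rfl⟩ v hv
    exact mem_iInter.1 hv n

theorem cb_iInf {F J : Type*} [Field F] (τ : J → TopologicalSpace F)
    (h : ∀ j, @CountablyBounded F _ (τ j)) : @CountablyBounded F _ (⨅ j, τ j) := by
  intro R hR U hU
  rw [nhds_iInf, Filter.mem_iInf] at hU
  obtain ⟨I, hI, A, hA, rfl⟩ := hU
  choose V hV hVA using fun i : I => h i.1 R hR (A i) (hA i)
  refine ⟨⋂ i : I, V i, ?_, ?_⟩
  · rw [nhds_iInf, Filter.mem_iInf]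
    exact ⟨I, hI, V, hV, rfl⟩
  · intro r hr v hv
    rw [mem_iInter] at hv ⊢
    exact fun i => hVA i r hr v (hv i)

/-- below a sequence of positive hyperreal numbers there is a positive one -/
theorem exists_pos_lt (ε : ℕ → Hyperreal) (h : ∀ n, 0 < ε n) :
    ∃ δ : Hyperreal, 0 < δ ∧ ∀ n, δ < ε n := by
  choose e he using fun n => Hyperreal.ofSeq_surjective (ε n)
  have he0 : ∀ n, ∀ᶠ k in hyperfilter ℕ, 0 < e n k := by
    intro n
    have h1 := h n
    rw [← he n] at h1
    exact Hyperreal.ofSeq_lt_ofSeq.1 h1
  have hd' : ∀ k m : ℕ, ∃ d : ℝ, 0 < d ∧ ∀ n ≤ m, 0 < e n k → d < e n k := by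
    intro k m
    induction m with
    | zero =>
      by_cases h1 : 0 < e 0 k
      · refine ⟨e 0 k / 2, by linarith, fun n hn _ => ?_⟩
        rw [Nat.le_zero.1 hn]
        linarith
      · refine ⟨1, one_pos, fun n hn h2 => ?_⟩
        rw [Nat.le_zero.1 hn] at h2
        exact absurd h2 h1
    | succ m ih =>
      obtain ⟨d, hd0, hd1⟩ := ih
      by_cases h1 : 0 < e (m + 1) k
      · refine ⟨min d (e (m + 1) k / 2), lt_min hd0 (by linarith), fun n hn h2 => ?_⟩
        rcases Nat.le_succ_iff.1 hn with h3 | h3
        · exact (min_le_left _ _).trans_lt (hd1 n h3 h2)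
        · rw [h3]
          exact (min_le_right _ _).trans_lt (by linarith)
      · refine ⟨d, hd0, fun n hn h2 => ?_⟩
        rcases Nat.le_succ_iff.1 hn with h3 | h3
        · exact hd1 n h3 h2
        · rw [h3] at h2
          exact absurd h2 h1
  choose d hd0 hd1 using fun k => hd' k k
  refine ⟨Hyperreal.ofSeq d, ?_, fun n => ?_⟩
  · exact Hyperreal.ofSeq_lt_ofSeq.2 (Eventually.of_forall hd0)
  · rw [← he n]
    refine Hyperreal.ofSeq_lt_ofSeq.2 ?_
    have h1 : ∀ᶠ k in hyperfilter ℕ, n ≤ k :=
      (Nat.hyperfilter_le_atTop (eventually_ge_atTop n))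
    filter_upwards [he0 n, h1] with k h2 h3
    exact hd1 k n h3 h2

/-- Every Hausdorff topological field in which all countable subsets are bounded embeds into a
connected Hausdorff topological field. The countable subsets are bounded if countable intersections
of neighbourhoods of `0` are neighbourhoods of `0`, and for all suprema of such topologies. For
example, the field of the hyperreal numbers with its order topology, which is nondiscrete and has
this property, embeds into a connected Hausdorff topological field. -/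
theorem result :
    (∀ (F : Type) [Field F] [TopologicalSpace F] [IsTopologicalDivisionRing F] [T2Space F],
      CountablyBounded F → EmbedsIntoConnected F) ∧
    (∀ (F : Type) [Field F] [TopologicalSpace F] [IsTopologicalDivisionRing F],
      IsPTopology F → CountablyBounded F) ∧
    (∀ (F J : Type) [Field F] (τ : J → TopologicalSpace F),
      (∀ j, @CountablyBounded F _ (τ j)) → @CountablyBounded F _ (⨅ j, τ j)) ∧
    (∃ _ : TopologicalSpace Hyperreal, OrderTopology Hyperreal ∧
      IsTopologicalDivisionRing Hyperreal ∧ T2Space Hyperreal ∧ (𝓝[≠] (0 : Hyperreal)).NeBot ∧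
      IsPTopology Hyperreal ∧ EmbedsIntoConnected Hyperreal) := by
  refine ⟨?_, ?_, ?_, ?_⟩
  · intro F _ _ _ _ hF
    exact Pool.Agent.T2H66.CF.main_cb F hF
  · intro F _ _ _ h
    exact cb_of_p h
  · intro F J _ τ h
    exact cb_iInf τ h
  · let _ : TopologicalSpace Hyperreal := Preorder.topology Hyperreal
    have _ : OrderTopology Hyperreal := ⟨rfl⟩
    have hP : IsPTopology Hyperreal := by
      intro U hU
      choose ε hε h using fun n => (nhds_basis_abs_sub_lt (0 : Hyperreal)).mem_iff.1 (hU n)
      obtain ⟨δ, hδ, hδε⟩ := exists_pos_lt ε hε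
      refine (nhds_basis_abs_sub_lt (0 : Hyperreal)).mem_iff.2 ⟨δ, hδ, fun y hy => ?_⟩
      rw [mem_iInter]
      exact fun n => h n (lt_trans hy (hδε n))
    exact ⟨inferInstance, inferInstance, inferInstance, inferInstance, inferInstance, hP,
      Pool.Agent.T2H66.CF.main_cb Hyperreal (cb_of_p hP)⟩

end Pool.Agent.Results.MP_a60711_al.CountablyBoundedFields
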