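import Pool.Agent.T2H66.CF.VT
import Mathlib.Topology.Algebra.Order.Field
import Mathlib.Topology.Algebra.Valued.ValuedField

set_option autoImplicit false

/-!
# Embedding V-topological fields into connected fields
-/

open Filter Topology Set

namespace Pool.Agent.Results.MP_a60711_al.VTopologicalFields

/-- The topology of the field `F` is a V-topology: for every neighbourhood `U` of `0` there is a
neighbourhood `V` of `0` such that `x * y ∈ V` implies that `x ∈ U` or `y ∈ U`. -/
def IsVTopology (F : Type*) [Field F] [TopologicalSpace F] : Prop :=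
  ∀ U ∈ 𝓝 (0 : F), ∃ V ∈ 𝓝 (0 : F), ∀ x y : F, x * y ∈ V → x ∈ U ∨ y ∈ U

/-- The topological field `F` embeds into a connected Hausdorff topological field. -/
def EmbedsIntoConnected (F : Type) [Field F] [TopologicalSpace F] : Prop :=
  ∃ (K : Type) (_ : Field K) (_ : TopologicalSpace K),
    IsTopologicalDivisionRing K ∧ T2Space K ∧ ConnectedSpace K ∧
      ∃ g : F →+* K, Topology.IsEmbedding g

theorem vtop_ordered {F : Type*} [Field F] [LinearOrder F] [IsStrictOrderedRing F]
    [TopologicalSpace F] [OrderTopology F] : IsVTopology F := by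
  intro U hU
  obtain ⟨ε, hε, h⟩ := (nhds_basis_abs_sub_lt (0 : F)).mem_iff.1 hU
  refine ⟨{x | |x - 0| < ε * ε}, (nhds_basis_abs_sub_lt (0 : F)).mem_of_mem (mul_pos hε hε), ?_⟩
  intro x y hxy
  by_contra hcon
  push Not at hcon
  have h1 : ε ≤ |x| := by
    by_contra h1
    apply hcon.1
    apply h
    show |x - 0| < ε
    rw [sub_zero]
    exact not_le.1 h1
  have h2 : ε ≤ |y| := by
    by_contra h2
    apply hcon.2
    apply h
    show |y - 0| < ε
    rw [sub_zero]
    exact not_le.1 h2
  have h3 : |x * y - 0| < ε * ε := hxy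
  rw [sub_zero, abs_mul] at h3
  exact absurd (mul_le_mul h1 h2 hε.le (abs_nonneg x)) (not_le.2 h3)

theorem vtop_valued {F Γ₀ : Type*} [Field F] [LinearOrderedCommGroupWithZero Γ₀] [Valued F Γ₀] :
    IsVTopology F := by
  intro U hU
  obtain ⟨γ, h⟩ := Valued.mem_nhds_zero.1 hU
  refine ⟨_, Valued.mem_nhds_zero.2 ⟨γ * γ, subset_rfl⟩, ?_⟩
  intro x y hxy
  by_contra hcon
  push Not at hcon
  have h1 : γ.1 ≤ Valued.v.restrict x := by
    by_contra h1
    exact hcon.1 (h (not_le.1 h1))
  have h2 : γ.1 ≤ Valued.v.restrict y := by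
    by_contra h2
    exact hcon.2 (h (not_le.1 h2))
  have h3 : Valued.v.restrict (x * y) < (γ * γ).1 := hxy
  rw [map_mul, Units.val_mul] at h3
  exact absurd (mul_le_mul' h1 h2) (not_le.2 h3)

theorem vtop_normed {F : Type*} [NormedField F] : IsVTopology F := by
  intro U hU
  obtain ⟨ε, hε, h⟩ := Metric.mem_nhds_iff.1 hU
  refine ⟨Metric.ball 0 (ε * ε), Metric.ball_mem_nhds _ (mul_pos hε hε), ?_⟩
  intro x y hxy
  by_contra hcon
  push Not at hcon
  have h1 : ε ≤ ‖x‖ := by
    by_contra h1
    exact hcon.1 (h (by rw [mem_ball_zero_iff]; exact not_le.1 h1))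
  have h2 : ε ≤ ‖y‖ := by
    by_contra h2
    exact hcon.2 (h (by rw [mem_ball_zero_iff]; exact not_le.1 h2))
  rw [mem_ball_zero_iff, norm_mul] at hxy
  exact absurd (mul_le_mul h1 h2 hε.le (norm_nonneg x)) (not_le.2 hxy)

/-- Every Hausdorff topological field whose topology is a V-topology embeds into a connected
Hausdorff topological field. This holds in particular for all ordered fields with the order topology,
for all fields with a valuation, of any rank, and for all fields with an absolute value. -/
theorem result :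
    (∀ (F : Type) [Field F] [TopologicalSpace F] [IsTopologicalDivisionRing F] [T2Space F],
      IsVTopology F → EmbedsIntoConnected F) ∧
    (∀ (F : Type) [Field F] [LinearOrder F] [IsStrictOrderedRing F] [TopologicalSpace F]
      [OrderTopology F], IsVTopology F ∧ EmbedsIntoConnected F) ∧
    (∀ (F Γ₀ : Type) [Field F] [LinearOrderedCommGroupWithZero Γ₀] [Valued F Γ₀],
      IsVTopology F ∧ EmbedsIntoConnected F) ∧
    (∀ (F : Type) [NormedField F], IsVTopology F ∧ EmbedsIntoConnected F) := by
  refine ⟨?_, ?_, ?_, ?_⟩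
  · intro F _ _ _ _ hF
    exact Pool.Agent.T2H66.CF.main_vtop F hF
  · intro F _ _ _ _ _
    exact ⟨vtop_ordered, Pool.Agent.T2H66.CF.main_vtop F vtop_ordered⟩
  · intro F Γ₀ _ _ _
    exact ⟨vtop_valued, Pool.Agent.T2H66.CF.main_vtop F vtop_valued⟩
  · intro F _
    exact ⟨vtop_normed, Pool.Agent.T2H66.CF.main_vtop F vtop_normed⟩

end Pool.Agent.Results.MP_a60711_al.VTopologicalFields
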